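import Pool.Agent.helper51.QS.SpecB

/-! # Row `GAL` of project qs: the extension of the fraction fields is Galois -/

set_option autoImplicit false

namespace Pool.Agent.QS

open Pool.Agent.PC MvPolynomial

universe u

theorem GAL : GAL_stmt.{u} := by
  intro k R A F K G _ _ _ _ _ _ _ _ _ _ _ _ _ _ _ _ _ _ _ _ _ _ _ _ _ _ _ _ _ _ _ _
  letI := IsFractionRing.mulSemiringAction G A K
  have hint : Algebra.IsIntegral R A := Algebra.IsInvariant.isIntegral R A G
  have hcomm : SMulCommClass G F K := IsFractionRing.smulCommClass G R A F K
  have hinv : Algebra.IsInvariant F K G := IsFractionRing.isInvariant_of_isIntegral G R A F K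
  have hbot : (FixedPoints.intermediateField G : IntermediateField F K) = ⊥ := by
    rw [eq_bot_iff]
    exact Algebra.IsInvariant.isInvariant
  have h1 : IsGalois F K := by
    rw [← isGalois_iff_isGalois_bot, ← hbot]
    exact IsGalois.of_fixed_field K G
  have h2 : Module.Finite (⊥ : IntermediateField F K) K := by
    rw [← hbot]
    exact (inferInstance : FiniteDimensional (FixedPoints.subfield G K) K)
  have h3 : Module.Finite F K := Module.Finite.trans (⊥ : IntermediateField F K) K
  refine ⟨h3, h1.to_isSeparable, fun g => ⟨MulSemiringAction.toRingHom G K g, fun a => ?_, fun x => ?_⟩⟩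
  · exact (algebraMap.coe_smul' g a K).symm
  · exact smul_algebraMap g x

end Pool.Agent.QS
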